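import Pool.Agent.GSX.Cub

set_option autoImplicit false
set_option maxRecDepth 100000

noncomputable section

namespace Pool.Agent.GSK7

/-- the cubic -/
def X : GSX.Cub ℤ where
  a := ![![1, 2, -12], ![2, 2, 16], ![0, -1, -12], ![5, 12, 12], ![1, 2, -28], ![16, 48, 0]]
  b := ![![-4, -8, -4], ![-8, -10, 0], ![0, -1, 0], ![-4, -14, 0], ![-8, -12, 0], ![-48, -80, 0]]


end Pool.Agent.GSK7
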