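import Pool.Agent.GSW.DTree

set_option autoImplicit false
set_option maxRecDepth 100000

noncomputable section

namespace Pool.Agent.GSK7

open Pool.Agent.GSW

/-- the datum -/
def D : GSR.Dat E where
  B := !![E.c (-445901007) + E.c 19071 * E.r,
    E.c 523255428 + E.c (-101712) * E.r; E.c 112216266 + E.c 48412 * E.r,
    E.c 283903457 + E.c (-19071) * E.r]
  N := !![E.c 156485029459859278206 + E.c 318954467197075122 * E.r,
    E.c (-621337616972970663465) + E.c 55360753105529193 * E.r; E.c 196636908184492965252 + E.c (-13073017249379136) * E.r,
    E.c (-156485029459859278206) + E.c 440427586864973568 * E.r]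
  E := !![E.c (-2442060483886519) + E.c 1161080783207 * E.r,
    E.c 13626506683028614 + E.c (-1496982185770) * E.r; E.c (-6398411482331568) + E.c (-332325158926) * E.r,
    E.c 2442060483886519 + E.c (-906794701677) * E.r]
  γ := ![E.c (-62501160963) + E.c 132443223 * E.r, E.c (-1575990071649) + E.c (-132443223) * E.r,
    E.c (-8939649722092012214655) + E.c 2268712844744381490 * E.r,
    E.c 49454412947685079872720 + E.c (-4997299914774786255) * E.r]
  δ := ![E.c 1125144 + E.c (-248) * E.r, E.c 1164650 + E.c 170 * E.r,
    E.c (-26259767327464580) + E.c (-6386137818060) * E.r,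
    E.c (-34503089094076785) + E.c 5614070749105 * E.r]
  t := !![E.c 0, E.c (-1069040595911310539092680) + E.c (-828005563394077072680) * E.r,
    E.c 1468088816987291159074190100340948750 + E.c 4570453067775230171239914460250 * E.r,
    E.c (-2759328866262325444278168502462662270) + E.c 332560903230280906617687296417190 * E.r,
    E.c (-3662723811486952407374038080) + E.c (-303231023131922576647320) * E.r,
    E.c 32097484217348700410263314411336600 + E.c 8225625247446673251804006669840 * E.r; E.c 0,
    E.c 0,
    E.c (-1759678089655286171956304855675512700) + E.c (-211242240103180750022277756209900) * E.r,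
    E.c 0, E.c 3284268964467644247542160960 + E.c 584880884067051348748920 * E.r,
    E.c (-65907359845163767000549484814265080) + E.c (-8052051274206993625388875493760) * E.r; E.c 0,
    E.c 0, E.c 0,
    E.c 611025285352510516270184396545691823615079875 + E.c (-473258300555973650620015782473114304642375) * E.r,
    E.c (-85606301101734364530980928242138930325) + E.c 9695825680885036094705255306806725 * E.r,
    E.c (-1013843314184213491477234152333697683470602125) + E.c 196168651447679454052641958087511218685625 * E.r; E.c 0,
    E.c 0, E.c 0, E.c 0,
    E.c 158162075174479387380427277036866605375 + E.c (-25257166793459854211611174900853475) * E.r,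
    E.c 2782910453984105612890783234239012723822753525 + E.c (-370992142497862353220096020396347791861425) * E.r; E.c 0,
    E.c 0, E.c 0, E.c 0, E.c 0, E.c 0; E.c 0, E.c 0, E.c 0, E.c 0, E.c 0, E.c 0]

/-- the datum with its parameters -/
def T : DT where
  D := D
  n := ![E.c (-1885670507569572360) * E.r * E.t + E.c 3771341015139144720 * E.r * E.s,
    E.c 6 * E.t + E.c (-16) * E.s]
  dl := E.c (-24080586) + E.c 12040293 * E.s


end Pool.Agent.GSK7
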