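import Pool.Agent.GSW.Fin
import Pool.Agent.GSK7.Tab2

set_option autoImplicit false
set_option maxRecDepth 100000

noncomputable section

namespace Pool.Agent.GSK7

open Pool.Agent Pool.Agent.GSW GSX Pool.Agent.GSR

instance fp : Fact (Nat.Prime 1000003) := ⟨by norm_num⟩

theorem hu : rtChk 1000003 391449 (47860049) = true := by decide +kernel

/-- residues of the datum -/
def Dn1 : Dat ℕ := ⟨!![401815, 312616; 988068, 601124], !![501879, 703307; 849623, 630388],
  !![225904, 415473; 304138, 409939], ![692834, 990018, 695123, 819037], ![46080, 710779, 121793,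
  919661],
    !![0, 255454, 599718, 552891, 53693, 393570; 0, 0, 750674, 0, 376525, 812363; 0, 0, 0, 303903,
      800373, 422628; 0, 0, 0, 0, 917853, 775833; 0, 0, 0, 0, 0, 0; 0, 0, 0, 0, 0, 0]⟩

theorem hd1 : datChk 1000003 391449 D Dn1 = true := by decide +kernel

/-- residues of the datum -/
def Dn2 : Dat ℕ := ⟨!![798850, 195102; 443795, 204089], !![17459, 764038; 427656, 850280],
  !![320006, 846937; 386451, 44154], ![360249, 322600, 215385, 578456], ![204202, 618518, 80338,
  840285],
    !![0, 424038, 171487, 399615, 41709, 791963; 0, 0, 274610, 0, 885711, 135857; 0, 0, 0, 288284,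
      876335, 902519; 0, 0, 0, 0, 571871, 678339; 0, 0, 0, 0, 0, 0; 0, 0, 0, 0, 0, 0]⟩

theorem hd2 : datChk 1000003 608554 D Dn2 = true := by decide +kernel

/-- intermediate values -/
def g1 : GSE.GZ.GC (ZMod 1000003) where
  c := ![1, 4]
  s := 210702
  m := 1
  n := 2
  z := !![218393, 602254; 905658, 888395]
  w1 := !![972324, 123895; 375360, 671302]
  w2 := !![912606, 361548; 933710, 969453]
  h1 := ![![0, 0, 0, 0, 995430, 952417], ![564473, 175109, 0, 0, 768787, 0], ![0, 0, 564473,
    86313, 119316, 0]]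
  h2 := ![![0, 0, 0, 0, 416831, 952417], ![430584, 714245, 0, 0, 795199, 0], ![0, 0, 430584,
    304618, 369886, 0]]
  M := !![870588, 611570, 245858; 226094, 0, 243186; 342393, 506415, 0]
  N := !![59213, 744712, 178180; 615191, 786397, 270821; 641141, 406088, 238153]
  y := ![409353, 132893, 533156]
  p := ![564473, 175109, 128943, 172626, 2843, 952417]
  q := ![427849, 876034, 754403, 427184, 920730, 586582]
  f1 := 185387
  f2 := 955087
  v := ![850149, 659897, 947725, 859239, 438275, 38755]
  e0 := ![77288, 723751, 709766, 231706, 675061, 0]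
  e1 := ![166852, 265354, 427471, 611490, 0, 0]
  e2 := ![8700, 258187, 354238, 281693, 187670, 0]
  mm := 315214
  p0 := 82182
  p1 := 321150
  M0 := 146244
  M1 := 790480

theorem ok1 : g1.Ok (Dn1.map (fun a : ℕ => (a : ZMod 1000003))) := by
  constructor <;> decide +kernel

/-- intermediate values -/
def g2 : GSE.GZ.GC (ZMod 1000003) where
  c := ![1, 4]
  s := 789301
  m := 1
  n := 2
  z := !![218393, 602254; 905658, 888395]
  w1 := !![912606, 361548; 933710, 969453]
  w2 := !![972324, 123895; 375360, 671302]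
  h1 := ![![0, 0, 0, 0, 416831, 952417], ![430584, 714245, 0, 0, 795199, 0], ![0, 0, 430584,
    304618, 369886, 0]]
  h2 := ![![0, 0, 0, 0, 995430, 952417], ![564473, 175109, 0, 0, 768787, 0], ![0, 0, 564473,
    86313, 119316, 0]]
  M := !![129415, 773909, 657610; 388433, 0, 493588; 754145, 756817, 0]
  N := !![940790, 384812, 358862; 255291, 213606, 593915; 821823, 729182, 761850]
  y := ![149966, 812002, 515851]
  p := ![430584, 714245, 861168, 609236, 951799, 952417]
  q := ![829893, 431654, 87974, 513791, 9618, 739335]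
  f1 := 508741
  f2 := 557471
  v := ![184896, 760321, 348533, 678758, 982416, 538087]
  e0 := ![291303, 216226, 165012, 655206, 257993, 0]
  e1 := ![260867, 174579, 715106, 153428, 0, 0]
  e2 := ![912797, 613842, 223993, 507707, 106841, 0]
  mm := 931226
  p0 := 627675
  p1 := 824855
  M0 := 421635
  M1 := 269432

theorem ok2 : g2.Ok (Dn1.map (fun a : ℕ => (a : ZMod 1000003))) := by
  constructor <;> decide +kernel

/-- intermediate values -/
def g3 : GSE.GZ.GC (ZMod 1000003) where
  c := ![1, 4]
  s := 207902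
  m := 1
  n := 2
  z := !![250169, 790794; 675833, 643045]
  w1 := !![316393, 60077; 290062, 591848]
  w2 := !![345301, 8713; 472649, 359821]
  h1 := ![![0, 0, 0, 0, 591844, 952417], ![83935, 592229, 0, 0, 851888, 0], ![0, 0, 83935, 575540,
    468934, 0]]
  h2 := ![![0, 0, 0, 0, 7645, 952417], ![277955, 692215, 0, 0, 621804, 0], ![0, 0, 277955, 296081,
    813570, 0]]
  M := !![389786, 179246, 373621; 76377, 0, 691156; 425878, 311443, 0]
  N := !![636448, 417892, 24288; 294538, 31297, 396989; 846656, 622614, 402602]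
  y := ![87370, 680026, 704131]
  p := ![83935, 592229, 167870, 151077, 381594, 952417]
  q := ![59782, 785424, 144957, 185174, 699123, 423654]
  f1 := 418407
  f2 := 951741
  v := ![76417, 35197, 666125, 325483, 94778, 72238]
  e0 := ![534242, 736507, 450811, 506696, 375994, 0]
  e1 := ![866757, 911070, 150227, 688209, 0, 0]
  e2 := ![655461, 956695, 878545, 7837, 55549, 0]
  mm := 538695
  p0 := 950401
  p1 := 283939
  M0 := 400677
  M1 := 67382

theorem ok3 : g3.Ok (Dn2.map (fun a : ℕ => (a : ZMod 1000003))) := by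
  constructor <;> decide +kernel

/-- intermediate values -/
def g4 : GSE.GZ.GC (ZMod 1000003) where
  c := ![1, 4]
  s := 792101
  m := 1
  n := 2
  z := !![250169, 790794; 675833, 643045]
  w1 := !![345301, 8713; 472649, 359821]
  w2 := !![316393, 60077; 290062, 591848]
  h1 := ![![0, 0, 0, 0, 7645, 952417], ![277955, 692215, 0, 0, 621804, 0], ![0, 0, 277955, 296081,
    813570, 0]]
  h2 := ![![0, 0, 0, 0, 591844, 952417], ![83935, 592229, 0, 0, 851888, 0], ![0, 0, 83935, 575540,
    468934, 0]]
  M := !![610217, 923626, 574125; 820757, 0, 688560; 626382, 308847, 0]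
  N := !![363555, 705465, 153347; 582111, 968706, 377389; 975715, 603014, 597401]
  y := ![868608, 4849, 570677]
  p := ![277955, 692215, 555910, 592162, 256583, 952417]
  q := ![999597, 709808, 630298, 455242, 728928, 543714]
  f1 := 979541
  f2 := 137275
  v := ![235336, 338279, 105327, 59436, 523396, 586377]
  e0 := ![641566, 609423, 209908, 494564, 149867, 0]
  e1 := ![500418, 922023, 282883, 336972, 0, 0]
  e2 := ![335701, 744673, 687531, 44907, 415447, 0]
  mm := 540822
  p0 := 147879
  p1 := 490512
  M0 := 246888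
  M1 := 925910

theorem ok4 : g4.Ok (Dn2.map (fun a : ℕ => (a : ZMod 1000003))) := by
  constructor <;> decide +kernel

theorem red1 : Red 1000003 D 1 4 1 2 ((391449 : ℕ) : ZMod 1000003) g1.s :=
  red_of hd1 ok1 ok2 (by decide +kernel) (by decide +kernel) (by decide +kernel)
    (by decide +kernel) (by decide +kernel) (by decide +kernel) (by decide +kernel)

theorem red2 : Red 1000003 D 1 4 1 2 ((1000003 - 391449 : ℕ) : ZMod 1000003) g3.s :=
  red_of hd2 ok3 ok4 (by decide +kernel) (by decide +kernel) (by decide +kernel)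
    (by decide +kernel) (by decide +kernel) (by decide +kernel) (by decide +kernel)

theorem good {z : ℂ} (hz : z * z = ((47860049 : ℤ) : ℂ)) : GSN.Good (dr T.D z) :=
  goodW hu red1 red2 hz

theorem li {z : ℂ} (hz : z * z = ((47860049 : ℤ) : ℂ)) :
    LinearIndependent ℂ ![(dr T.D z).B, (dr T.D z).E, 1, (dr T.D z).N] := by
  refine li_of ?_
  have h := evC_ne (p := 1000003) (a := 0) (b := 0) hu (e := liE T.D) (by decide +kernel)
    (by decide +kernel) hz
  rwa [Nat.cast_zero] at h

/-- parameters of the test -/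
def p3 : Pm := ⟨47860049, 6919, 2 ^ 110, 10, 2 ^ 2309⟩

/-- coefficients -/
def lS : List (E × ℕ × ℕ) := [(E.c (-144483516), 1, 0), (E.c (-45408050825192738198202960) * E.r,
  0, 1), (E.c 0, 0, 0)]

/-- coefficients -/
def lT : List (E × ℕ × ℕ) := [(E.c (-385289376), 1, 0), (E.c (-90816101650385476396405920) * E.r,
  0, 1), (E.c 0, 0, 0)]

/-- coefficients -/
def lQ : List (E × ℕ × ℕ) := [(E.c (-72241758), 1, 0), (E.c (-22704025412596369099101480) * E.r,
  0, 1), (E.c (-7542682030278289440) * E.r, 0, 0)]

theorem dlne {z : ℂ} (hz : z * z = ((47860049 : ℤ) : ℂ)) : E.ev GSX.sK GSX.tK (zK z) T.dl ≠ 0 :=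
  ev_ne (p := 1000003) (a := 0) (b := 0) hu (e := T.dl) (by decide +kernel)
    (by decide +kernel) hz

theorem top {z : ℂ} (hz : z * z = ((47860049 : ℤ) : ℂ)) :
    IntermediateField.adjoin ℂ (Set.range (par z T)) = ⊤ := by
  refine top_of_hom (p := p3) hz (dl := T.dl) (n0 := T.n 0) (n1 := T.n 1) (m := 1) (S := lS)
    (T := lT) (Q := lQ) (by decide +kernel) (by decide +kernel) (by decide +kernel)
    (by decide +kernel) (by decide +kernel) ?_ (dlne hz) ?_ ?_
  · exact ev_ne (p := 1000003) (a := 0) (b := 0) hu (by decide +kernel)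
      (by decide +kernel) hz
  · rw [par, mul_div_cancel₀ _ (dlne hz)]
  · rw [par, mul_div_cancel₀ _ (dlne hz)]

/-- the inverse -/
def L10 : Fin 8 → Fin 8 → ℕ := ![![0, 1000002, 117635, 205884, 705884, 161763, 367646, 235274],
  ![397060, 0, 538064, 942477, 210857, 205883, 610296, 117629], ![0, 0, 0, 0, 0, 680888, 63782,
  0], ![0, 0, 0, 0, 0, 21329, 319115, 0], ![0, 0, 85111, 0, 0, 0, 0, 0], ![0, 0, 0, 914892, 85111,
  0, 0, 0], ![0, 0, 0, 829781, 85111, 0, 0, 0], ![0, 0, 0, 0, 0, 0, 0, 85111]]

/-- the inverse -/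
def L11 : Fin 8 → Fin 8 → ℕ := ![![0, 1000002, 117635, 205884, 705884, 161763, 367646, 235274],
  ![397060, 0, 538064, 942477, 210857, 205883, 610296, 117629], ![0, 0, 0, 0, 0, 680888, 63782,
  0], ![0, 0, 0, 0, 0, 21329, 319115, 0], ![0, 0, 85111, 0, 0, 0, 0, 0], ![0, 0, 0, 914892, 85111,
  0, 0, 0], ![0, 0, 0, 829781, 85111, 0, 0, 0], ![0, 0, 0, 0, 0, 0, 0, 85111]]

theorem iv10 : invChk 1000003 1 2 391449 (jf J1) L10 = true := by decide +kernel

theorem iv11 : invChk 1000003 1 2 (1000003 - 391449) (jf J1) L11 = true := by decide +kernel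

theorem jd1 {z : ℂ} (hz : z * z = ((47860049 : ℤ) : ℂ)) :
    IsUnit (jm GSX.sK GSX.tK (zK z) (jf J1)).det := jdet hu iv10 iv11 hz

/-- the inverse -/
def L20 : Fin 8 → Fin 8 → ℕ := ![![337858, 205121, 768303, 274855, 517947, 578364, 248, 221829],
  ![223279, 98669, 331145, 115189, 688584, 429591, 453412, 593745], ![960077, 27182, 96855,
  982305, 847704, 392711, 390730, 863655], ![156078, 584681, 198945, 428127, 50114, 790189,
  677018, 371261], ![698725, 118220, 468616, 196921, 123738, 417628, 496035, 178246], ![125217,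
  628709, 11041, 751469, 519331, 329554, 903440, 751074], ![96169, 17353, 239010, 336142, 428908,
  354367, 292821, 495455], ![110708, 231638, 686835, 495661, 159551, 842454, 738461, 931777]]

/-- the inverse -/
def L21 : Fin 8 → Fin 8 → ℕ := ![![337858, 794882, 558022, 11192, 365262, 180324, 74889, 316368],
  ![223279, 901334, 383077, 382659, 830327, 563768, 764013, 93048], ![960077, 972821, 503457,
  944390, 601909, 709017, 138108, 884594], ![156078, 415322, 781812, 741451, 111169, 296784,
  109582, 352392], ![698725, 881783, 211582, 681565, 956366, 481911, 364661, 48637], ![125217,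
  371294, 900161, 392323, 283295, 112990, 28180, 681526], ![96169, 982650, 432950, 285525, 357733,
  626137, 898702, 87462], ![110708, 768365, 764547, 100647, 16888, 443160, 439587, 325652]]

theorem iv20 : invChk 1000003 1 1 391449 (dg8 T.tp.m (jf J2)) L20 = true := by decide +kernel

theorem iv21 : invChk 1000003 1 1 (1000003 - 391449) (dg8 T.tp.m (jf J2)) L21 = true := by decide +kernel

theorem jd2 {z : ℂ} (hz : z * z = ((47860049 : ℤ) : ℂ)) :
    IsUnit (jm GSX.sK GSX.tK (zK z) (dg8 T.tp.m (jf J2))).det := jdet hu iv20 iv21 hz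


end Pool.Agent.GSK7
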