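import Pool.Agent.GSE.Short
import Pool.Agent.GSK7.Final

set_option autoImplicit false
set_option maxRecDepth 100000

noncomputable section

namespace Pool.Agent.GSK7F

open Pool.Agent MvPolynomial

/-- the cubic form -/
def F : MvPolynomial (Fin 6) ℂ :=
  X 0 ^ 3 + X 0 ^ 2 * X 1 + X 0 ^ 2 * X 4 + X 0 * X 1 ^ 2 + X 0 * X 1 * X 4 - X 0 * X 1 * X 5
    + X 0 * X 2 ^ 2 + X 0 * X 2 * X 3 - X 0 * X 2 * X 4 + X 0 * X 3 ^ 2 + X 0 * X 3 * X 4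
    + 2 * X 0 * X 3 * X 5 - 2 * X 0 * X 4 ^ 2 - X 1 ^ 2 * X 2 + X 1 ^ 2 * X 3 + X 1 * X 2 * X 3
    + X 1 * X 2 * X 5 + X 1 * X 4 ^ 2 + X 1 * X 4 * X 5 + X 1 * X 5 ^ 2 + X 2 * X 3 * X 4
    - X 2 * X 3 * X 5 - X 2 * X 4 * X 5 - 2 * X 3 * X 4 ^ 2 + X 4 ^ 3 - X 4 * X 5 ^ 2

/-- the substitution -/
def M : Matrix (Fin 6) (Fin 6) ℤ :=
  !![2, 4, 0, 6, 4, 32; -2, 0, 0, -4, -4, -24; 2, -2, 1, 4, 4, 24; 0, 4, 0, 4, -2, 0; 0, 0, 0, 2,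
    0, 8; -2, -2, -1, -6, -4, -24]

/-- the inverse substitution -/
def N : Matrix (Fin 6) (Fin 6) ℤ :=
  !![4, 0, 12, 8, -16, 12; 2, 2, 0, 0, -2, 0; 4, 12, 8, 0, -4, 0; -4, -4, -4, 0, 4, -4; -4, -4,
    -8, -4, 4, -8; 1, 1, 1, 0, 0, 1]

theorem hMN : M * N = (8 : ℤ) • (1 : Matrix (Fin 6) (Fin 6) ℤ) := by decide +kernel

theorem eqF : C (((1 : ℤ) : ℤ) : ℂ) * bind₁ (GSE.lsub (M.map (Int.castRingHom ℂ))) F =
    C (((2 : ℤ) : ℤ) : ℂ) * (Pool.Agent.GSK7.X.map (Int.castRingHom ℂ)).F := by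
  rw [← GSE.map_FZ]
  simp only [F, GSE.FZ, GSE.linZ, GSE.lsub, M, Pool.Agent.GSK7.X, Fin.sum_univ_six,
    Matrix.map_apply, Matrix.of_apply, Matrix.cons_val, map_add, map_sub, map_neg, map_mul,
    map_pow, bind₁_X_right, map_X, map_C, map_ofNat, map_one, map_zero, Int.coe_castRingHom,
    Int.cast_ofNat, Int.cast_neg, Int.cast_one, Int.cast_zero]
  ring

theorem result : P28.PSmooth F ∧ P28.Rational F :=
  GSE.short M N (by decide) (by decide) (by decide) hMN eqF Pool.Agent.GSK7.smooth Pool.Agent.GSK7.rational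

end Pool.Agent.GSK7F
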