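import Pool.Agent.GSE.Fin
import Pool.Agent.GSK7.Cubic

set_option autoImplicit false
set_option maxRecDepth 100000

noncomputable section

namespace Pool.Agent.GSK7

open Pool.Agent GSX

/-- certificate for the chart 0 -/
def c0 : Fin 6 → GSE.NP 0 :=
  (![0, 0, 0, 0, 0, 3] : Fin 6 → ℤ)

/-- certificate for the chart 1 -/
def c1 : Fin 6 → GSE.NP 1 :=
  (![[2], [], [], [], [], []] : Fin 6 → List (ℤ))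

/-- certificate for the chart 2 -/
def c2 : Fin 6 → GSE.NP 2 :=
  (![[], [], [], [[4]], [[1]], []] : Fin 6 → List (List (ℤ)))

/-- certificate for the chart 3 -/
def c3 : Fin 6 → GSE.NP 3 :=
  (![[[[3],[1]],[[1]]], [[[2]]], [[[2]]], [[[4],[3]],[[1]]], [[[2],[3]],[[4]]],
    []] : Fin 6 → List (List (List (ℤ))))

/-- certificate for the chart 4 -/
def c4 : Fin 6 → GSE.NP 4 :=
  (![[[[[0,4,1],[1,2],[2]],[[0,2]]],[[[1]]]], [[[[0,0,4],[1,2],[3]],[[1,3],[2]]],[[[4,2]]]],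
    [[[[2,4,3],[2,3],[4]],[[4],[2]],[[3]]],[[[],[1]]]], [[[[4,4],[3,3],[4]],[[0,3],[3]],[[3]]],
    [[[1,2]]]], [[[[4,3],[2,3],[3]],[[1]]],[[[3]]]], [[[[2],[4,
    4]]]]] : Fin 6 → List (List (List (List (ℤ)))))

/-- certificate for the chart 5 -/
def c5 : Fin 6 → GSE.NP 5 :=
  (![[[[[[2,4,4,1,0,2],[4,2,1,3],[0,4,0,4],[0,2,1],[0,1],[3]],[[4,0,0,1,2],[1,3,2,3],[4,0,2],[1],
    [2]],[[4,4,1,4],[1,1,4],[2,4],[1]],[[0,3,4],[3,4]],[[2,4],[4]],[[2]]],[[[4,4,0,1,2],[0,1,0,1],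
    [3,0,4],[0,1],[2]],[[3,4,3,1],[2,0,2],[2,3],[3]],[[1,0,4],[3,2],[4]],[[3,2],[4]]],[[[2,1,3],
    [0,1],[3]],[[3,3,1],[4,2],[1]],[[4,2],[3]],[[2]]]],[[[[4,2,2,3,2],[0,1,0,2],[2,2,2],[4],[3]],
    [[2,3,1,1],[1,0,4],[2,4],[4]],[[3,2],[4,4],[3]],[[1,3],[3]],[[3]]],[[[4,1,2,4],[1,4],[2,3]],
    [[3,1,2],[3,1]],[[4,4],[4]],[[1]]],[[[2,1,3],[0,1],[3]],[[4,1],[4]],[[1]]]]], [[[[[0,4,1,4,3,
    4],[4,3],[2,4,0,4],[3,3,2],[],[1]],[[0,0,2,4],[0,4,1,2],[1,1,1],[2,2],[3]],[[3,2,1,2],[4,0,4],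
    [2,2],[3]],[[2,0,3],[3,1],[4]],[[4],[3]],[[2]]],[[[2,0,4,3,3],[4,0,4],[2,4,1],[0,1]],[[1,0,3,
    1],[0,2,1],[1,2],[3]],[[3,2],[0,4]],[[0,4],[2]],[[2]]],[[[3,2,4,3],[0,2,2],[4],[2]],[[1,2,4],
    [2,1],[1]],[[3,3],[2]],[[2]]],[[[4,2,1],[0,2],[1]],[[3,2],[3]],[[2]]]],[[[[3,4,4,1,4],[0,2,0,
    4],[4,4,4],[3],[1]],[[4,1,2,2],[2,0,3],[4,3],[3]],[[1,4],[3,3],[1]],[[2,1],[1]],[[1]]],[[[3,2,
    4,3],[2,3],[4,1]],[[1,2,4],[1,2]],[[3,3],[3]],[[2]]],[[[4,2,1],[0,2],[1]],[[3,2],[3]],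
    [[2]]]]], [[[[[0,3,3,2,3,3],[4,2,0,4],[3,0,0,3],[0,4,2],[1,2],[2]],[[3,1,3,4,1],[4,1,2,4],[1,
    4,1],[2,3],[2]],[[0,2,0,3],[4,1,3],[3,1],[2]],[[0,2,1],[2,1]],[[3,2],[3]],[[1]]],[[[4,4,1,3,
    1],[0,0,4,4],[2,3,3],[2,3],[3]],[[2,0,4,4],[3,4,2],[3,3]],[[3,3,2],[2,3],[1]],[[1]]],[[[1,1],
    [0,1],[3],[2]],[[0,2,3],[0,4]],[[2,1],[4]]],[[[4,2,1],[0,2],[1]],[[3,2],[3]],[[2]]]],[[[[2,2,
    0,1,4],[3,3,3,1],[3,0,1],[1,3]],[[2,3,3,2],[3,4,4],[1,4],[1]]]]], [[[[[4,2,4,4,3],[3,2,3,2,4],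
    [4,1,0,2],[1,0,3],[0,1]],[[0,0,2,4,2],[4,0,1,2],[4,0,1],[2,4],[4]],[[0,2,3,1],[3,0,1],[0,1],
    [2]],[[3,4],[3,4],[2]],[[3,2],[3]],[[3]]],[[[0,3,1,1,3],[2,3,4],[3,3],[0,2],[1]],[[0,2],[3,1,
    4],[2,4]],[[3,3],[4]],[[3,4]]],[[[2,1,0,1],[0,1,4],[4]]]],[[[[3],[3,0,0,2]]]]], [[[[[4,4,1],
    [0,1,3,0,3],[4,1,1],[3,1,2],[1,2],[4]],[[1,4,4,2],[1,3,1],[3,4,3],[2,3],[1]],[[1,1,0,3],[2,2,
    4],[],[2]],[[3,4],[0,1],[2]],[[0,2]]],[[[0,1,2,2,2],[1,4,2]]]]], [[[[[1,3,4,4],[1,4,3,4,4],[2,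
    0,2,1],[4,1],[3,4],[4]],[[2,3,3,4],[1,3,1,2],[0,
    1]]]]]] : Fin 6 → List (List (List (List (List (ℤ))))))

/-- the certificates -/
def c : (n : ℕ) → Fin 6 → GSE.NP n
  | 0 => c0
  | 1 => c1
  | 2 => c2
  | 3 => c3
  | 4 => c4
  | 5 => c5
  | _ + 6 => fun _ => GSE.NP.zero _

theorem smooth : P28.PSmooth (X.map (Int.castRingHom ℂ)).F := by
  refine GSE.psmooth_of_chk X 5 (by norm_num) c fun n hn => ?_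
  interval_cases n <;> decide +kernel

theorem irr : Irreducible (X.map (Int.castRingHom ℂ)).F := by
  have h : (X.map (Int.castRingHom ℂ)).F.IsHomogeneous 3 := by
    rw [← GSE.map_FZ]
    exact (GSE.hom_FZ X).map _
  exact GSE.psmooth_irr h (by norm_num) smooth

theorem nondeg : (X.map (Int.castRingHom ℂ)).NonDeg :=
  GSE.nondeg_of (by decide +kernel) (by decide +kernel) (by decide +kernel)

theorem nsq : ¬ IsSquare (X.map (Int.castRingHom ℂ)).D2 :=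
  GSE.d2_nsq X 1 (by decide +kernel)

end Pool.Agent.GSK7
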